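import Mathlib

namespace Pool.Agent.Results.MP_b5d889_lc.Unbounded

/-- a cell state; the parts `0, 1, 2, 3` are top, right, bottom, left -/
abbrev St := Fin 4 → Bool

/-- the rotation `(t, r, b, l) ↦ (l, t, r, b)` -/
def rho (s : St) : St := ![s 3, s 0, s 1, s 2]

/-- local functions of reversible ESPCAs -/
def IsRevESPCA (f : St → St) : Prop :=
  f (fun _ => false) = (fun _ => false) ∧ (∀ s, f (rho s) = rho (f s)) ∧ Function.Bijective f

abbrev Conf := ℤ × ℤ → St

/-- the global map: `f` applied to the bottom part of the upper neighbour, the left part of the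
right neighbour, the top part of the lower neighbour and the right part of the left neighbour -/
def step (f : St → St) (c : Conf) : Conf := fun z =>
  f ![c (z.1, z.2 + 1) 2, c (z.1 + 1, z.2) 3, c (z.1, z.2 - 1) 0, c (z.1 - 1, z.2) 1]

/-- the particles of a configuration -/
def parts (c : Conf) : Set ((ℤ × ℤ) × Fin 4) := {q | c q.1 q.2 = true}

/-- the populations of `c, F c, …, F^(p-1) c` -/
def pops (f : St → St) (c : Conf) (p : ℕ) : Set ℕ :=
  {n | ∃ i < p, n = (parts ((step f)^[i] c)).ncard}

def tb : Bool → Bool → Bool → Bool → St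
  | false, false, true, true => ![true, true, false, true]
  | false, true, true, false => ![true, false, true, true]
  | true, false, false, true => ![true, true, true, false]
  | true, true, false, false => ![false, true, true, true]
  | false, true, true, true => ![true, true, false, false]
  | true, false, true, true => ![false, true, true, false]
  | true, true, false, true => ![false, false, true, true]
  | true, true, true, false => ![true, false, false, true]
  | a, b, c, d => ![a, b, c, d]

def f0 (s : St) : St := tb (s 0) (s 1) (s 2) (s 3)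

theorem f0_rev : IsRevESPCA f0 := by
  refine ⟨by decide, by decide, ?_⟩
  rw [← Finite.injective_iff_bijective]
  intro a b
  revert a b
  decide +kernel

theorem step_inj : Function.Injective (step f0) := by
  intro c d h
  have key : ∀ z : ℤ × ℤ, c (z.1, z.2 + 1) 2 = d (z.1, z.2 + 1) 2 ∧
      c (z.1 + 1, z.2) 3 = d (z.1 + 1, z.2) 3 ∧ c (z.1, z.2 - 1) 0 = d (z.1, z.2 - 1) 0 ∧
      c (z.1 - 1, z.2) 1 = d (z.1 - 1, z.2) 1 := fun z => by
    have h1 := f0_rev.2.2.1 (congrFun h z)
    exact ⟨congrFun h1 0, congrFun h1 1, congrFun h1 2, congrFun h1 3⟩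
  funext ⟨x, y⟩ i
  fin_cases i
  · simpa using (key (x, y + 1)).2.2.1
  · simpa using (key (x + 1, y)).2.2.2
  · simpa using (key (x, y - 1)).1
  · simpa using (key (x - 1, y)).2.1

def InB (n x y : ℤ) : Prop := 0 ≤ x ∧ x ≤ n ∧ 0 ≤ y ∧ y ≤ n

def Conf.Ok (n : ℤ) (c : Conf) : Prop := ∀ x y, ¬ InB n x y →
  (c (x, y) 0 = true → InB n x (y + 1)) ∧ (c (x, y) 1 = true → InB n (x + 1) y) ∧
  (c (x, y) 2 = true → InB n x (y - 1)) ∧ (c (x, y) 3 = true → InB n (x - 1) y)

theorem tb_single : ∀ a b c d : Bool, ¬ (a = true ∧ b = true) → ¬ (a = true ∧ c = true) →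
    ¬ (a = true ∧ d = true) → ¬ (b = true ∧ c = true) → ¬ (b = true ∧ d = true) →
    ¬ (c = true ∧ d = true) → tb a b c d = ![a, b, c, d] := by decide

theorem ok_step {n : ℤ} {c : Conf} (h : c.Ok n) : (step f0 c).Ok n := by
  intro x y hxy
  have h0 : c (x, y + 1) 2 = true → InB n x (y + 1) := fun e => by
    by_contra hn
    exact hxy (by simpa using (h x (y + 1) hn).2.2.1 e)
  have h1 : c (x + 1, y) 3 = true → InB n (x + 1) y := fun e => by
    by_contra hn
    exact hxy (by simpa using (h (x + 1) y hn).2.2.2 e)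
  have h2 : c (x, y - 1) 0 = true → InB n x (y - 1) := fun e => by
    by_contra hn
    exact hxy (by simpa using (h x (y - 1) hn).1 e)
  have h3 : c (x - 1, y) 1 = true → InB n (x - 1) y := fun e => by
    by_contra hn
    exact hxy (by simpa using (h (x - 1) y hn).2.1 e)
  have e : step f0 c (x, y) =
      ![c (x, y + 1) 2, c (x + 1, y) 3, c (x, y - 1) 0, c (x - 1, y) 1] := by
    show tb _ _ _ _ = _
    apply tb_single <;> rintro ⟨a, b⟩
    · have := h0 a; have := h1 b; unfold InB at *; omega
    · have := h0 a; have := h2 b; unfold InB at *; omega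
    · have := h0 a; have := h3 b; unfold InB at *; omega
    · have := h1 a; have := h2 b; unfold InB at *; omega
    · have := h1 a; have := h3 b; unfold InB at *; omega
    · have := h2 a; have := h3 b; unfold InB at *; omega
  rw [e]
  exact ⟨h0, h1, h2, h3⟩

def Reg (n : ℤ) : Set ((ℤ × ℤ) × Fin 4) :=
  (Set.Icc (-1) (n + 1) ×ˢ Set.Icc (-1) (n + 1)) ×ˢ Set.univ

theorem reg_fin (n : ℤ) : (Reg n).Finite :=
  ((Set.finite_Icc _ _).prod (Set.finite_Icc _ _)).prod Set.finite_univ

theorem ok_sub {n : ℤ} {c : Conf} (h : c.Ok n) : parts c ⊆ Reg n := by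
  rintro ⟨⟨x, y⟩, i⟩ hq
  have hq' : c (x, y) i = true := hq
  simp only [Reg, Set.mem_prod, Set.mem_Icc, Set.mem_univ, and_true]
  by_cases hb : InB n x y
  · unfold InB at hb; omega
  · obtain ⟨a0, a1, a2, a3⟩ := h x y hb
    fin_cases i
    · have := a0 hq'; unfold InB at this; omega
    · have := a1 hq'; unfold InB at this; omega
    · have := a2 hq'; unfold InB at this; omega
    · have := a3 hq'; unfold InB at this; omega

theorem parts_inj : Function.Injective parts := by
  intro c d h
  funext z i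
  have : (z, i) ∈ parts c ↔ (z, i) ∈ parts d := by rw [h]
  exact Bool.eq_iff_iff.2 this

theorem ok_iter {n : ℤ} {c : Conf} (h : c.Ok n) (i : ℕ) : ((step f0)^[i] c).Ok n := by
  induction i with
  | zero => exact h
  | succ i ih => rw [Function.iterate_succ_apply']; exact ok_step ih

theorem periodic {n : ℤ} {c : Conf} (h : c.Ok n) : ∃ p, 1 ≤ p ∧ (step f0)^[p] c = c := by
  obtain ⟨i, j, hij, e⟩ := (reg_fin n).finite_subsets.exists_lt_map_eq_of_forall_mem
    (f := fun i : ℕ => parts ((step f0)^[i] c)) (fun i => ok_sub (ok_iter h i))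
  have e1 := parts_inj e
  refine ⟨j - i, by omega, (step_inj.iterate i) ?_⟩
  rw [← Function.iterate_add_apply, show i + (j - i) = j by omega, e1]

/-- the evolution of the infinite diagonal band -/
def G (t s : ℤ) : St :=
  if s = -2 - t then ![true, false, true, true]
  else if s = -t then ![false, true, true, true]
  else if -t < s ∧ s ≤ t ∧ (t - s) % 4 = 0 then ![true, true, true, false]
  else if -t < s ∧ s ≤ t ∧ (t - s) % 4 = 2 then ![false, true, true, false]
  else ![false, false, false, false]

theorem G_step (t s : ℤ) (ht : 0 ≤ t) :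
    tb (G t (s - 1) 2) (G t (s + 1) 3) (G t (s + 1) 0) (G t (s - 1) 1) = G (t + 1) s := by
  unfold G
  split_ifs <;> first | rfl | (exfalso; omega)

open Classical in
noncomputable def c0 (n : ℤ) : Conf := fun z =>
  if InB n z.1 z.2 then G 0 (z.1 - z.2) else fun _ => false

theorem c0_ok (n : ℤ) : (c0 n).Ok n := by
  intro x y h
  simp [c0, h]

theorem iter_eq (n : ℤ) (t : ℕ) : ∀ x y : ℤ, t ≤ x → x ≤ n - t → t ≤ y → y ≤ n - t →
    (step f0)^[t] (c0 n) (x, y) = G t (x - y) := by
  induction t with
  | zero =>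
    intro x y h1 h2 h3 h4
    have : InB n x y := by unfold InB; omega
    simp [c0, this]
  | succ t ih =>
    intro x y h1 h2 h3 h4
    rw [Function.iterate_succ_apply']
    show tb _ _ _ _ = _
    push_cast at h1 h2 h3 h4 ⊢
    rw [← G_step _ _ (Int.natCast_nonneg t)]
    show tb ((step f0)^[t] (c0 n) (x, y + 1) 2) ((step f0)^[t] (c0 n) (x + 1, y) 3)
      ((step f0)^[t] (c0 n) (x, y - 1) 0) ((step f0)^[t] (c0 n) (x - 1, y) 1) = _
    rw [ih x (y + 1) (by omega) (by omega) (by omega) (by omega),
      ih (x + 1) y (by omega) (by omega) (by omega) (by omega),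
      ih x (y - 1) (by omega) (by omega) (by omega) (by omega),
      ih (x - 1) y (by omega) (by omega) (by omega) (by omega),
      show x - (y + 1) = x - y - 1 by ring, show x + 1 - y = x - y + 1 by ring,
      show x - (y - 1) = x - y + 1 by ring, show x - 1 - y = x - y - 1 by ring]

theorem pop_zero (n : ℕ) : (parts (c0 n)).ncard ≤ 8 * (n + 1) := by
  let g : Fin (n + 1) × Fin 2 × Fin 4 → (ℤ × ℤ) × Fin 4 := fun q =>
    ((q.1, q.1 + 2 * (q.2.1 : ℕ)), q.2.2)
  have hsub : parts (c0 n) ⊆ g '' Set.univ := by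
    rintro ⟨⟨x, y⟩, i⟩ hq
    have hq' : c0 n (x, y) i = true := hq
    by_cases hb : InB n x y
    · simp only [c0, hb, if_true] at hq'
      unfold InB at hb
      by_cases h1 : x - y = -2
      · refine ⟨(⟨x.toNat, by omega⟩, 1, i), trivial, ?_⟩
        simp only [g, Prod.mk.injEq, and_true, Fin.val_one]
        omega
      by_cases h2 : x - y = 0
      · refine ⟨(⟨x.toNat, by omega⟩, 0, i), trivial, ?_⟩
        simp only [g, Prod.mk.injEq, and_true, Fin.val_zero]
        omega
      · exfalso
        unfold G at hq'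
        rw [if_neg (by omega), if_neg (by omega), if_neg (by omega), if_neg (by omega)] at hq'
        revert hq'
        fin_cases i <;> simp
    · simp [c0, hb] at hq'
  refine (Set.ncard_le_ncard hsub (Set.finite_univ.image _)).trans
    ((Set.ncard_image_le Set.finite_univ).trans ?_)
  rw [Set.ncard_univ, Nat.card_eq_fintype_card]
  simp only [Fintype.card_prod, Fintype.card_fin]
  omega

theorem pop_big (k : ℕ) :
    k * k ≤ (parts ((step f0)^[2 * k] (c0 ((8 * k : ℕ) : ℤ)))).ncard := by
  let g : Fin k × Fin k → (ℤ × ℤ) × Fin 4 := fun q =>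
    ((4 * k + (q.1 : ℕ) - 2 * (q.2 : ℕ), 2 * k + (q.1 : ℕ)), 2)
  have hg : Function.Injective g := by
    rintro ⟨a, b⟩ ⟨a', b'⟩ h
    simp only [g, Prod.mk.injEq, and_true] at h
    ext <;> simp only <;> omega
  have hsub : g '' Set.univ ⊆ parts ((step f0)^[2 * k] (c0 ((8 * k : ℕ) : ℤ))) := by
    rintro _ ⟨⟨a, b⟩, -, rfl⟩
    have ha := a.2
    have hb := b.2
    show (step f0)^[2 * k] (c0 ((8 * k : ℕ) : ℤ)) (_, _) 2 = true
    rw [iter_eq _ _ _ _ (by push_cast; omega) (by push_cast; omega) (by push_cast; omega)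
      (by push_cast; omega)]
    unfold G
    push_cast
    split_ifs <;> first | rfl | (exfalso; omega)
  refine le_trans ?_ (Set.ncard_le_ncard hsub
    ((reg_fin _).subset (ok_sub (ok_iter (c0_ok _) _))))
  rw [Set.ncard_image_of_injective _ hg, Set.ncard_univ, Nat.card_eq_fintype_card]
  simp

theorem step_empty {c : Conf} (h : parts c = ∅) : parts (step f0 c) = ∅ := by
  have h1 : ∀ z i, c z i = false := fun z i => by
    by_contra hn
    have : (z, i) ∈ parts c := by simpa [parts] using hn
    rw [h] at this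
    exact this
  ext ⟨z, i⟩
  simp only [parts, step, h1, Set.mem_ofPred_eq, Set.mem_empty_iff_false, iff_false]
  revert i
  decide

theorem result : ∃ f : St → St, IsRevESPCA f ∧ ∀ M : ℝ, ∃ (c : Conf) (p : ℕ),
    (parts c).Finite ∧ (parts c).Nonempty ∧ 1 ≤ p ∧ (step f)^[p] c = c ∧
    M < ((sSup (pops f c p) : ℕ) : ℝ) / ((sInf (pops f c p) : ℕ) : ℝ) := by
  refine ⟨f0, f0_rev, fun M => ?_⟩
  obtain ⟨m, hm⟩ := exists_nat_gt M
  set k : ℕ := 72 * m + 1 with hk
  set c := c0 ((8 * k : ℕ) : ℤ) with hc
  have hok : c.Ok _ := c0_ok _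
  obtain ⟨p0, hp0, hper⟩ := periodic hok
  have hper' : (step f0)^[p0 * (2 * k + 1)] c = c :=
    Function.IsPeriodicPt.mul_const hper _
  have hne : (parts c).Nonempty := by
    refine ⟨((0, 0), 2), ?_⟩
    have : InB ((8 * k : ℕ) : ℤ) 0 0 := by unfold InB; omega
    show c0 _ (0, 0) 2 = true
    simp only [c0, this, if_true]
    rfl
  set p := p0 * (2 * k + 1) with hp
  have hpk : 2 * k < p := by nlinarith
  have hfin : (pops f0 c p).Finite := by
    refine ((Set.finite_Iio p).image (fun i => (parts ((step f0)^[i] c)).ncard)).subset ?_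
    rintro _ ⟨i, hi, rfl⟩
    exact ⟨i, hi, rfl⟩
  have h0 : (parts c).ncard ∈ pops f0 c p := ⟨0, by omega, rfl⟩
  have hlow : sInf (pops f0 c p) ≤ 8 * (8 * k + 1) := (Nat.sInf_le h0).trans (pop_zero _)
  have hup : k * k ≤ sSup (pops f0 c p) :=
    (pop_big k).trans (le_csSup hfin.bddAbove ⟨2 * k, hpk, rfl⟩)
  have hpos : 0 < sInf (pops f0 c p) := by
    obtain ⟨i, hi, e⟩ := Nat.sInf_mem ⟨_, h0⟩
    rw [e, Set.ncard_pos ((reg_fin _).subset (ok_sub (ok_iter hok i))),
      Set.nonempty_iff_ne_empty]
    intro he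
    have : ∀ j, parts ((step f0)^[j + i] c) = ∅ := fun j => by
      induction j with
      | zero => simpa using he
      | succ j ih =>
        rw [show j + 1 + i = (j + i) + 1 by ring, Function.iterate_succ_apply']
        exact step_empty ih
    have h2 := this (p - i)
    rw [show p - i + i = p by omega, hper'] at h2
    exact hne.ne_empty h2
  refine ⟨c, p, (reg_fin _).subset (ok_sub hok), hne, by omega, hper', hm.trans_le ?_⟩
  rw [le_div_iff₀ (by exact_mod_cast hpos)]
  have : m * sInf (pops f0 c p) ≤ sSup (pops f0 c p) := by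
    refine le_trans (Nat.mul_le_mul_left m hlow) (le_trans ?_ hup)
    rw [hk]
    nlinarith
  exact_mod_cast this

end Pool.Agent.Results.MP_b5d889_lc.Unbounded
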